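import Pool.Agent.Helper44.CR.Fin

set_option autoImplicit false

/-!
# Elements of prime order of the Cremona groups over `ℚ` which are regular on the complement of a
# hyperplane arrangement

Let `f ∈ ℚ[X₁, …, Xₙ]` be a nonzero polynomial which is a product of polynomials of degree `≤ 1`
over an algebraic closure of `ℚ`. If an automorphism of prime order `ℓ` of the field
`ℚ(X₁, …, Xₙ)` maps the ring `ℚ[X₁, …, Xₙ, 1 / f]` into itself, then `φ(ℓ - 1) ≤ n`. For
`n = 2` and `n = 3` this says `ℓ ≤ 7`.
-/

open MvPolynomial Pool.Agent.Helper44.CR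

namespace Pool.Agent.Results.MP_a4c31f_ag.Arrangements

/-- **Automorphisms of complements of hyperplane arrangements.** -/
theorem result {n : ℕ} (f : MvPolynomial (Fin n) ℚ) (hf : f ≠ 0)
    (s : List (MvPolynomial (Fin n) (AlgebraicClosure ℚ))) (hs : ∀ L ∈ s, L.totalDegree ≤ 1)
    (hprod : s.prod = map (algebraMap ℚ (AlgebraicClosure ℚ)) f)
    (σ : RingAut (FractionRing (MvPolynomial (Fin n) ℚ))) (hσ : (orderOf σ).Prime)
    (hreg : Preserves σ f) : Nat.totient (orderOf σ - 1) ≤ n :=
  arrangement f hf s hs hprod σ hσ hreg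

end Pool.Agent.Results.MP_a4c31f_ag.Arrangements
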