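import Pool.Agent.Helper44.CR.Fin

set_option autoImplicit false

/-!
# A congruence for every element of prime order of the Cremona groups over `ℚ`

Every element `σ` of prime order `ℓ` of `Cr_n(ℚ)` is an automorphism of the complement of some
hypersurface `f = 0` in affine space, and for every such `f`, for all but finitely many primes
`p` whose order modulo `ℓ` is larger than `n`, and all `q = p ^ k` with `k` prime to this order,
the number of points of the hypersurface over `𝔽_q` is congruent to `q ^ n` modulo `ℓ`.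
-/

open MvPolynomial Pool.Agent.Helper44.CR

namespace Pool.Agent.Results.MP_a4c31f_ag.HypersurfaceCongruences

/-- **Hypersurface congruences.** -/
theorem result (n ℓ : ℕ) (hℓ : ℓ.Prime) (σ : RingAut (FractionRing (MvPolynomial (Fin n) ℚ)))
    (hσ : orderOf σ = ℓ) :
    (∃ f : MvPolynomial (Fin n) ℤ, f ≠ 0 ∧ Preserves σ (map (Int.castRingHom ℚ) f)) ∧
    ∀ f : MvPolynomial (Fin n) ℤ, f ≠ 0 → Preserves σ (map (Int.castRingHom ℚ) f) →
      ∃ m : ℕ, 0 < m ∧ ∀ (p : ℕ) [Fact p.Prime], ¬ p ∣ m → n < orderOf (p : ZMod ℓ) →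
        ∀ k : ℕ, 0 < k → k.Coprime (orderOf (p : ZMod ℓ)) →
          Nat.card {x : Fin n → GaloisField p k //
            eval₂ (Int.castRingHom (GaloisField p k)) x f = 0} ≡ (p ^ k) ^ n [MOD ℓ] := by
  classical
  refine ⟨exists_preserves σ (by rw [hσ]; exact hℓ.one_lt), fun f hf hreg => ?_⟩
  have hfQ : map (Int.castRingHom ℚ) f ≠ 0 := by
    rw [Ne, map_eq_zero_iff _ (map_injective _ (fun a b h => Int.cast_injective h))]
    exact hf
  obtain ⟨m, hm, h⟩ := congruence σ ℓ hℓ hσ (map (Int.castRingHom ℚ) f) 1 one_pos f (by simp)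
    hfQ hreg
  refine ⟨m, hm, fun p _ hpm hord k hk0 hk => ?_⟩
  have h1 := h p hpm hord k hk0 hk
  have h2 : Nat.card {x : Fin n → GaloisField p k //
      eval₂ (Int.castRingHom (GaloisField p k)) x f = 0} +
      Nat.card {x : Fin n → GaloisField p k //
      eval₂ (Int.castRingHom (GaloisField p k)) x f ≠ 0} = (p ^ k) ^ n := by
    rw [← Nat.card_sum, Nat.card_congr (Equiv.sumCompl (fun x : Fin n → GaloisField p k =>
      eval₂ (Int.castRingHom (GaloisField p k)) x f = 0)), Nat.card_fun,
      GaloisField.card p k hk0.ne', Nat.card_eq_fintype_card, Fintype.card_fin]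
  rw [← h2]
  refine (Nat.modEq_iff_dvd' (Nat.le_add_right _ _)).2 ?_
  rw [Nat.add_sub_cancel_left]
  exact h1

end Pool.Agent.Results.MP_a4c31f_ag.HypersurfaceCongruences
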