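import Pool.Agent.Helper44.CR.Zet

set_option autoImplicit false

/-!
# Automorphisms of prime order of function fields and point counts of smooth models

Let `σ` be an automorphism of prime order `ℓ` of a field `K`, for instance
`K = ℚ(X₁, …, Xₙ)`, which extends to an endomorphism `τ` of a scheme `X` with function field `K`,
smooth of relative dimension `n` over `ℤ` (for instance of a smooth model over `ℤ[1/m]`). Let `p`
be a prime number, of order `d` modulo `ℓ`. If the number of points of `X` over `𝔽_{p ^ k}` is,
modulo `ℓ` and for all `k` prime to some `M`, a nonzero polynomial of degree `≤ n` in `p ^ k`, plus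
possibly a linear combination of powers `γ ^ k` with `γ ^ (M * d) ≠ 1`, then `φ(d) ≤ n`. If `p` is a
primitive root modulo `ℓ` this says `φ(ℓ - 1) ≤ n`, which excludes all `ℓ ≥ 11` when `n ≤ 3`.

The definitions `genericMor` and `ZetaType` are in `Pool/Agent/Helper44/CR/Sch.lean` and
`Pool/Agent/Helper44/CR/Zet.lean`.
-/

open AlgebraicGeometry CategoryTheory Pool.Agent.Helper44.CR

namespace Pool.Agent.Results.MP_a4c31f_ag.PointCounts

/-- **Elements of prime order and point counts.** -/
theorem result {K : Type} [Field K] (σ : RingAut K) (ℓ : ℕ) [Fact ℓ.Prime] (hσ : orderOf σ = ℓ)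
    (X : Scheme.{0}) [IsIntegral X] [X.IsSeparated]
    (f : X ⟶ Spec (CommRingCat.of ℤ)) (n : ℕ) [SmoothOfRelativeDimension n f]
    (e : X.functionField ≃+* K) (τ : X ⟶ X)
    (hτ : Spec.map (CommRingCat.ofHom (σ : K →+* K)) ≫ genericMor X e = genericMor X e ≫ τ)
    (p : ℕ) [Fact p.Prime]
    (hcount : ZetaType ℓ p n (fun k => Nat.card (Spec (CommRingCat.of (GaloisField p k)) ⟶ X))) :
    Nat.totient (orderOf (p : ZMod ℓ)) ≤ n :=
  totient_le_of_smooth_zeta σ ℓ hσ X f n e τ hτ p hcount

end Pool.Agent.Results.MP_a4c31f_ag.PointCounts
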